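import Pool.Agent.Lib.CoP.Defs

/-!
# CoP.M.Ext (size 180): local smooth functions extend, locality of the bracket

`exists_ext`: `χ` a smooth bump on `E` around `x0`, `= 1` on `closedBall x0 (2ρ)`, support in `closedBall x0 (5ρ/2)` (`ContDiffBump`, `FiniteDimensional`). `û q = χ (e q) * u (e q)` for `q ∈ e.source`, `0` otherwise. Smooth on `e.source` (`e` is in the maximal atlas:
`contMDiffOn_of_mem_maximalAtlas`; `ContMDiffOn` of the composition on the open set `e.source ∩ e⁻¹' (ball x0 (3ρ))`; where `e q` is outside `closedBall x0 (5ρ/2)` the function is locally `0`); outside the compact (hence closed, `T2Space`) set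
`e.symm '' closedBall x0 (5ρ/2)` it vanishes. 
`br_local`: if `f = f'` on a neighbourhood of `p`: `d = f - f'` vanishes near `p`; `b` smooth bump at `p` supported where `d = 0` (`SmoothBumpFunction` or `exists_ext` with a bump): `b * d = 0`, `b p = 1`; `0 = br (b*d) g p = b p * br d g p + d p * br b g p` (`leibniz`), so
`br d g p = 0`; additivity. The second variable by `skew`.
-/

open Set Filter Metric
open scoped Topology ContDiff Manifold

noncomputable section

namespace CoP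

variable {E : Type*} [NormedAddCommGroup E] [NormedSpace ℝ E] [FiniteDimensional ℝ E]
  {M : Type*} [TopologicalSpace M] [ChartedSpace E M] [IsManifold 𝓘(ℝ, E) ∞ M] [T2Space M]

theorem exists_ext {e : OpenPartialHomeomorph M E}
    (he : e ∈ IsManifold.maximalAtlas 𝓘(ℝ, E) ∞ M) {x0 : E} {ρ : ℝ} (hρ : 0 < ρ)
    (hb : closedBall x0 (3 * ρ) ⊆ e.target) {u : E → ℝ} (hu : ContDiffOn ℝ ∞ u (ball x0 (3 * ρ))) :
    ∃ f : C^∞⟮𝓘(ℝ, E), M; ℝ⟯, (∀ x ∈ ball x0 (2 * ρ), f (e.symm x) = u x) ∧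
      (∀ q ∉ e.source, f q = 0) ∧ ∀ q ∈ e.source, e q ∉ ball x0 (3 * ρ) ∨ u (e q) = 0 → f q = 0 := by
  classical
  let χ : ContDiffBump x0 := ⟨2 * ρ, 5 * ρ / 2, by positivity, by linarith⟩
  let F : M → ℝ := fun q => if q ∈ e.source then χ (e q) * u (e q) else 0
  have hF1 : ∀ q, q ∈ e.source → F q = χ (e q) * u (e q) := fun q hq => if_pos hq
  have hF0 : ∀ q, q ∉ e.source → F q = 0 := fun q hq => if_neg hq
  set K : Set M := e.symm '' closedBall x0 (5 * ρ / 2) with hK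
  have hsub : closedBall x0 (5 * ρ / 2) ⊆ e.target :=
    (closedBall_subset_closedBall (by linarith)).trans hb
  have hKc : IsClosed K := by
    apply IsCompact.isClosed
    exact (isCompact_closedBall x0 (5 * ρ / 2)).image_of_continuousOn
      (e.continuousOn_symm.mono hsub)
  have hFK : ∀ q, q ∉ K → F q = 0 := by
    intro q hq
    by_cases h1 : q ∈ e.source
    · rw [hF1 q h1]
      have h2 : χ (e q) = 0 := by
        apply χ.zero_of_le_dist
        by_contra h3
        rw [not_le] at h3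
        exact hq ⟨e q, mem_closedBall.2 h3.le, e.left_inv h1⟩
      rw [h2, zero_mul]
    · exact hF0 q h1
  have hFs : ContMDiff 𝓘(ℝ, E) 𝓘(ℝ, ℝ) ∞ F := by
    intro q
    by_cases h : q ∈ e.source ∧ e q ∈ ball x0 (3 * ρ)
    · obtain ⟨h1, h2⟩ := h
      have h3 : ContMDiffAt 𝓘(ℝ, E) 𝓘(ℝ, E) ∞ e q := contMDiffAt_of_mem_maximalAtlas he h1
      have h4 : ContDiffAt ℝ ∞ (fun x => χ x * u x) (e q) :=
        χ.contDiffAt.mul (hu.contDiffAt (isOpen_ball.mem_nhds h2))
      have h5 : ContMDiffAt 𝓘(ℝ, E) 𝓘(ℝ, ℝ) ∞ ((fun x => χ x * u x) ∘ e) q :=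
        ContMDiffAt.comp q h4.contMDiffAt h3
      refine h5.congr_of_eventuallyEq ?_
      filter_upwards [e.open_source.mem_nhds h1] with q' hq'
      exact hF1 q' hq'
    · have h1 : q ∉ K := by
        rintro ⟨y, hy, rfl⟩
        apply h
        have h2 : y ∈ e.target := hsub hy
        refine ⟨e.map_target h2, ?_⟩
        rw [e.right_inv h2]
        exact closedBall_subset_ball (by linarith) hy
      have h2 : ContMDiffAt 𝓘(ℝ, E) 𝓘(ℝ, ℝ) ∞ (fun _ : M => (0 : ℝ)) q := contMDiffAt_const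
      refine h2.congr_of_eventuallyEq ?_
      filter_upwards [hKc.isOpen_compl.mem_nhds h1] with q' hq'
      exact hFK q' hq'
  refine ⟨⟨F, hFs⟩, ?_, ?_, ?_⟩
  · intro x hx
    have h2 : x ∈ e.target := hb (ball_subset_closedBall (ball_subset_ball (by linarith) hx))
    change F (e.symm x) = u x
    rw [hF1 _ (e.map_target h2), e.right_inv h2, χ.one_of_mem_closedBall (ball_subset_closedBall hx),
      one_mul]
  · intro q hq
    exact hF0 q hq
  · intro q hq h
    change F q = 0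
    rw [hF1 q hq]
    rcases h with h | h
    · have h2 : χ (e q) = 0 := by
        apply χ.zero_of_le_dist
        rw [mem_ball, not_lt] at h
        change 5 * ρ / 2 ≤ dist (e q) x0
        linarith
      rw [h2, zero_mul]
    · rw [h, mul_zero]

omit [FiniteDimensional ℝ E] [IsManifold 𝓘(ℝ, E) ∞ M] [T2Space M] in
private theorem ext_br_zero (π : Poisson E M) (g : C^∞⟮𝓘(ℝ, E), M; ℝ⟯) : π.br 0 g = 0 := by
  have h := π.smul_left 0 0 g
  rwa [zero_smul, zero_smul] at h

/-- a cut-off function -/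
private theorem ext_bump {p : M} {U : Set M} (hU : U ∈ 𝓝 p) :
    ∃ b : C^∞⟮𝓘(ℝ, E), M; ℝ⟯, b p = 1 ∧ ∀ q ∉ U, b q = 0 := by
  set e := chartAt E p with he
  have hp : p ∈ e.source := mem_chart_source E p
  have h1 : e.target ∩ e.symm ⁻¹' U ∈ 𝓝 (e p) := by
    refine inter_mem (e.open_target.mem_nhds (e.map_source hp)) ?_
    refine (e.continuousAt_symm (e.map_source hp)).preimage_mem_nhds ?_
    rwa [e.left_inv hp]
  obtain ⟨r, hr, hr'⟩ := nhds_basis_closedBall.mem_iff.1 h1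
  have hρ : 0 < r / 3 := by linarith
  have e3 : 3 * (r / 3) = r := by ring
  obtain ⟨b, hb1, hb2, hb3⟩ := exists_ext (M := M) (e := e) (x0 := e p) (ρ := r / 3)
    (IsManifold.chart_mem_maximalAtlas p) hρ
    (by rw [e3]; exact hr'.trans inter_subset_left) (u := fun _ => 1) contDiffOn_const
  refine ⟨b, ?_, ?_⟩
  · have h2 := hb1 (e p) (mem_ball_self (by linarith))
    rwa [e.left_inv hp] at h2
  · intro q hq
    by_cases h2 : q ∈ e.source
    · refine hb3 q h2 (Or.inl fun h3 => ?_)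
      rw [e3] at h3
      have h4 := (hr' (ball_subset_closedBall h3)).2
      rw [mem_preimage, e.left_inv h2] at h4
      exact hq h4
    · exact hb2 q h2

private theorem ext_left (π : Poisson E M) {f f' : C^∞⟮𝓘(ℝ, E), M; ℝ⟯}
    (g : C^∞⟮𝓘(ℝ, E), M; ℝ⟯) {p : M} (hf : ∀ᶠ q in 𝓝 p, f q = f' q) :
    π.br f g p = π.br f' g p := by
  obtain ⟨b, hb1, hb2⟩ := ext_bump (E := E) hf
  set d : C^∞⟮𝓘(ℝ, E), M; ℝ⟯ := f - f' with hd
  have hdq : ∀ q, d q = f q - f' q := fun q => rfl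
  have h1 : b * d = 0 := by
    ext q
    change b q * d q = 0
    by_cases hq : f q = f' q
    · rw [hdq, hq, sub_self, mul_zero]
    · rw [hb2 q hq, zero_mul]
  have h2 := congrArg (fun h : C^∞⟮𝓘(ℝ, E), M; ℝ⟯ => h p) (π.leibniz b d g)
  rw [h1, ext_br_zero] at h2
  have h3 : (0 : ℝ) = b p * π.br d g p + d p * π.br b g p := h2
  have hdp : d p = 0 := by
    rw [hdq, hf.self_of_nhds, sub_self]
  rw [hb1, hdp, one_mul, zero_mul, add_zero] at h3
  have h4 : f = f' + d := by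
    rw [hd]
    abel
  have h5 := congrArg (fun h : C^∞⟮𝓘(ℝ, E), M; ℝ⟯ => h p) (π.add_left f' d g)
  rw [← h4] at h5
  have h6 : π.br f g p = π.br f' g p + π.br d g p := h5
  rw [h6, ← h3, add_zero]

theorem br_local (π : Poisson E M) {f f' g g' : C^∞⟮𝓘(ℝ, E), M; ℝ⟯} {p : M}
    (hf : ∀ᶠ q in 𝓝 p, f q = f' q) (hg : ∀ᶠ q in 𝓝 p, g q = g' q) :
    π.br f g p = π.br f' g' p := by
  rw [ext_left π g hf]
  have h1 : π.br f' g p = -π.br g f' p :=
    congrArg (fun h : C^∞⟮𝓘(ℝ, E), M; ℝ⟯ => h p) (π.skew f' g)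
  have h2 : π.br f' g' p = -π.br g' f' p :=
    congrArg (fun h : C^∞⟮𝓘(ℝ, E), M; ℝ⟯ => h p) (π.skew f' g')
  rw [h1, h2, ext_left π f' hg]

theorem br_const (π : Poisson E M) {f g : C^∞⟮𝓘(ℝ, E), M; ℝ⟯} {p : M} {c : ℝ}
    (hf : ∀ᶠ q in 𝓝 p, f q = c) : π.br f g p = 0 := by
  have h1 : π.br 1 g = 0 := by
    have h2 := π.leibniz 1 1 g
    rw [one_mul, one_mul] at h2
    exact left_eq_add.1 h2
  have h2 : π.br (c • (1 : C^∞⟮𝓘(ℝ, E), M; ℝ⟯)) g = 0 := by
    rw [π.smul_left, h1, smul_zero]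
  have h3 : ∀ᶠ q in 𝓝 p, f q = (c • (1 : C^∞⟮𝓘(ℝ, E), M; ℝ⟯)) q := by
    filter_upwards [hf] with q hq
    rw [hq]
    change c = c * 1
    rw [mul_one]
  rw [ext_left π g h3, h2]
  rfl

end CoP
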