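import Mathlib

/-!
# CoP.M.Had (size 160): the lemma of Hadamard on a ball

`h y = ∫₀¹ fderiv ℝ F (x + t • (y - x)) dt` (values in `E →L[ℝ] ℝ`). `F y - F x = h y (y - x)`: fundamental theorem of calculus along the segment (`intervalIntegral.integral_eq_sub_of_hasDerivAt`; the ball is convex).
`h x = fderiv ℝ F x`. Smoothness: show by induction on `k : ℕ`, for all `G : E → F'` of class `C^k` on the ball (any finite dimensional or complete target `F'`), that `y ↦ ∫₀¹ t^m • G (x + t • (y - x)) dt` is `C^k` on the ball: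
`k = 0`: continuity of parametric integrals (`intervalIntegral.continuousAt_of_dominated_interval`, locally bounded); step: derivative `∫₀¹ t^(m+1) • fderiv ℝ G (x + t • (y - x)) dt` by
`intervalIntegral.hasFDerivAt_integral_of_dominated_of_fderiv_le`. (Check first whether Mathlib has a lemma on `ContDiff` of parametric interval integrals.)
-/

open Set Filter Metric MeasureTheory intervalIntegral
open scoped Topology ContDiff

noncomputable section

namespace CoP

variable {E : Type*} [NormedAddCommGroup E] [NormedSpace ℝ E] [FiniteDimensional ℝ E]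

section

universe u

variable {V F' : Type u} [NormedAddCommGroup V] [NormedSpace ℝ V] [FiniteDimensional ℝ V]
  [NormedAddCommGroup F'] [NormedSpace ℝ F']

private theorem had_line {G : V → F'} {x0 : V} {R : ℝ} (hG : ContinuousOn G (ball x0 R)) {x y : V}
    (hx : x ∈ ball x0 R) (hy : y ∈ ball x0 R) (m : ℕ) :
    ContinuousOn (fun t : ℝ => t ^ m • G (x + t • (y - x))) (Icc (0 : ℝ) 1) := by
  refine (continuous_pow m).continuousOn.smul (hG.comp (by fun_prop) ?_)
  intro t ht
  exact (convex_ball x0 R).add_smul_sub_mem hx hy ht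

private theorem had_meas {G : V → F'} {x0 : V} {R : ℝ} (hG : ContinuousOn G (ball x0 R)) {x y : V}
    (hx : x ∈ ball x0 R) (hy : y ∈ ball x0 R) (m : ℕ) :
    AEStronglyMeasurable (fun t : ℝ => t ^ m • G (x + t • (y - x)))
      (volume.restrict (uIoc (0 : ℝ) 1)) := by
  refine ((had_line hG hx hy m).mono ?_).aestronglyMeasurable measurableSet_uIoc
  rw [uIoc_of_le zero_le_one]
  exact Ioc_subset_Icc_self

/-- a radius and a bound -/
private theorem had_bound {G : V → F'} {x0 : V} {R : ℝ} (hG : ContinuousOn G (ball x0 R)) {x y0 : V}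
    (hx : x ∈ ball x0 R) (hy0 : y0 ∈ ball x0 R) :
    ∃ r C : ℝ, r < R ∧ x ∈ ball x0 r ∧ y0 ∈ ball x0 r ∧ 0 ≤ C ∧
      ∀ y ∈ ball x0 r, ∀ t ∈ Icc (0 : ℝ) 1, ‖G (x + t • (y - x))‖ ≤ C := by
  obtain ⟨r, hr, hrR⟩ := exists_between (max_lt (mem_ball.1 hx) (mem_ball.1 hy0))
  have hxr : x ∈ ball x0 r := mem_ball.2 ((le_max_left _ _).trans_lt hr)
  have hyr : y0 ∈ ball x0 r := mem_ball.2 ((le_max_right _ _).trans_lt hr)
  obtain ⟨C, hC⟩ := (isCompact_closedBall x0 r).exists_bound_of_continuousOn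
    (hG.mono (closedBall_subset_ball hrR))
  refine ⟨r, C, hrR, hxr, hyr, (norm_nonneg _).trans (hC x (ball_subset_closedBall hxr)), ?_⟩
  intro y hy t ht
  exact hC _ (ball_subset_closedBall ((convex_ball x0 r).add_smul_sub_mem hxr hy ht))

private theorem had_pow {t : ℝ} (ht : t ∈ Icc (0 : ℝ) 1) (m : ℕ) : ‖t ^ m‖ ≤ 1 := by
  rw [norm_pow, Real.norm_eq_abs, abs_of_nonneg ht.1]
  exact pow_le_one₀ ht.1 ht.2

private theorem had_cont {G : V → F'} {x0 : V} {R : ℝ} (hG : ContinuousOn G (ball x0 R)) {x : V}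
    (hx : x ∈ ball x0 R) (m : ℕ) :
    ContinuousOn (fun y => ∫ t in (0 : ℝ)..1, t ^ m • G (x + t • (y - x))) (ball x0 R) := by
  intro y0 hy0
  apply ContinuousAt.continuousWithinAt
  obtain ⟨r, C, hrR, hxr, hyr, hC0, hC⟩ := had_bound hG hx hy0
  have hnhds : ball x0 r ∈ 𝓝 y0 := isOpen_ball.mem_nhds hyr
  refine continuousAt_of_dominated_interval (bound := fun _ => C) ?_ ?_
    intervalIntegrable_const ?_
  · filter_upwards [hnhds] with y hy
    exact had_meas hG hx (ball_subset_ball hrR.le hy) m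
  · filter_upwards [hnhds] with y hy
    refine Eventually.of_forall fun t ht => ?_
    rw [uIoc_of_le zero_le_one] at ht
    have ht' := Ioc_subset_Icc_self ht
    rw [norm_smul]
    exact (mul_le_of_le_one_left (norm_nonneg _) (had_pow ht' m)).trans (hC y hy t ht')
  · refine Eventually.of_forall fun t ht => ?_
    rw [uIoc_of_le zero_le_one] at ht
    have ht' := Ioc_subset_Icc_self ht
    refine ContinuousAt.const_smul ?_ _
    have h1 : ContinuousAt G (x + t • (y0 - x)) :=
      hG.continuousAt (isOpen_ball.mem_nhds ((convex_ball x0 R).add_smul_sub_mem hx hy0 ht'))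
    exact ContinuousAt.comp (f := fun y => x + t • (y - x)) h1 (by fun_prop)

private theorem had_deriv {G : V → F'} {x0 : V} {R : ℝ}
    (hG : DifferentiableOn ℝ G (ball x0 R)) (hG' : ContinuousOn (fderiv ℝ G) (ball x0 R)) {x : V}
    (hx : x ∈ ball x0 R) (m : ℕ) {y0 : V} (hy0 : y0 ∈ ball x0 R) :
    HasFDerivAt (fun y => ∫ t in (0 : ℝ)..1, t ^ m • G (x + t • (y - x)))
      (∫ t in (0 : ℝ)..1, t ^ (m + 1) • fderiv ℝ G (x + t • (y0 - x))) y0 := by
  obtain ⟨r, C, hrR, hxr, hyr, hC0, hC⟩ := had_bound hG' hx hy0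
  have hnhds : ball x0 r ∈ 𝓝 y0 := isOpen_ball.mem_nhds hyr
  refine hasFDerivAt_integral_of_dominated_of_fderiv_le (bound := fun _ => C)
    (F' := fun y t => t ^ (m + 1) • fderiv ℝ G (x + t • (y - x))) hnhds ?_ ?_ ?_ ?_
    intervalIntegrable_const ?_
  · filter_upwards [hnhds] with y hy
    exact had_meas hG.continuousOn hx (ball_subset_ball hrR.le hy) m
  · apply ContinuousOn.intervalIntegrable
    rw [uIcc_of_le zero_le_one]
    exact had_line hG.continuousOn hx hy0 m
  · exact had_meas hG' hx hy0 (m + 1)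
  · refine Eventually.of_forall fun t ht y hy => ?_
    rw [uIoc_of_le zero_le_one] at ht
    have ht' := Ioc_subset_Icc_self ht
    rw [norm_smul]
    exact (mul_le_of_le_one_left (norm_nonneg _) (had_pow ht' (m + 1))).trans (hC y hy t ht')
  · refine Eventually.of_forall fun t ht y hy => ?_
    rw [uIoc_of_le zero_le_one] at ht
    have ht' := Ioc_subset_Icc_self ht
    have hmem : x + t • (y - x) ∈ ball x0 R :=
      (convex_ball x0 R).add_smul_sub_mem hx (ball_subset_ball hrR.le hy) ht'
    have h1 : HasFDerivAt G (fderiv ℝ G (x + t • (y - x))) (x + t • (y - x)) :=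
      (hG.differentiableAt (isOpen_ball.mem_nhds hmem)).hasFDerivAt
    have h2 : HasFDerivAt (fun y : V => x + t • (y - x)) (t • ContinuousLinearMap.id ℝ V) y :=
      (((hasFDerivAt_id y).sub_const x).const_smul t).const_add x
    have h3 := (h1.comp y h2).const_smul (t ^ m)
    have h4 : t ^ (m + 1) • fderiv ℝ G (x + t • (y - x)) =
        t ^ m • ((fderiv ℝ G (x + t • (y - x))).comp (t • ContinuousLinearMap.id ℝ V)) := by
      rw [ContinuousLinearMap.comp_smul, ContinuousLinearMap.comp_id, smul_smul, pow_succ]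
    rw [h4]
    exact h3

end

universe u

private theorem had_smooth {V : Type u} [NormedAddCommGroup V] [NormedSpace ℝ V]
    [FiniteDimensional ℝ V] {x0 : V} {R : ℝ} {x : V} (hx : x ∈ ball x0 R) (n : ℕ) :
    ∀ (F' : Type u) [NormedAddCommGroup F'] [NormedSpace ℝ F'] (m : ℕ) (G : V → F'),
      ContDiffOn ℝ n G (ball x0 R) →
      ContDiffOn ℝ n (fun y => ∫ t in (0 : ℝ)..1, t ^ m • G (x + t • (y - x))) (ball x0 R) := by
  induction n with
  | zero =>
    intro F' _ _ m G hG
    rw [Nat.cast_zero, contDiffOn_zero] at hG ⊢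
    exact had_cont hG hx m
  | succ n ih =>
    intro F' _ _ m G hG
    rw [Nat.cast_add, Nat.cast_one] at hG ⊢
    rw [contDiffOn_succ_iff_fderiv_of_isOpen isOpen_ball] at hG ⊢
    obtain ⟨h1, -, h2⟩ := hG
    have h3 := fun y0 (hy0 : y0 ∈ ball x0 R) => had_deriv h1 h2.continuousOn hx m hy0
    refine ⟨fun y hy => (h3 y hy).differentiableAt.differentiableWithinAt, ?_, ?_⟩
    · intro h
      exact absurd h (by simp)
    · refine (ih (V →L[ℝ] F') (m + 1) (fderiv ℝ G) h2).congr fun y hy => ?_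
      exact (h3 y hy).fderiv

theorem hadamard {F : E → ℝ} {x0 : E} {R : ℝ} (hF : ContDiffOn ℝ ∞ F (ball x0 R)) {x : E}
    (hx : x ∈ ball x0 R) : ∃ h : E → (E →L[ℝ] ℝ), ContDiffOn ℝ ∞ h (ball x0 R) ∧
      (∀ y ∈ ball x0 R, F y = F x + h y (y - x)) ∧ h x = fderiv ℝ F x := by
  have hG := (contDiffOn_infty_iff_fderiv_of_isOpen isOpen_ball).1 hF
  refine ⟨fun y => ∫ t in (0 : ℝ)..1, fderiv ℝ F (x + t • (y - x)), ?_, ?_, ?_⟩
  · rw [contDiffOn_infty]
    intro n
    have h1 := had_smooth hx n (E →L[ℝ] ℝ) 0 (fderiv ℝ F) (contDiffOn_infty.1 hG.2 n)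
    simpa using h1
  · intro y hy
    have hc : ContinuousOn (fun t : ℝ => fderiv ℝ F (x + t • (y - x))) (Icc (0 : ℝ) 1) := by
      have h1 := had_line hG.2.continuousOn hx hy 0
      simpa using h1
    have hmem : ∀ t ∈ Icc (0 : ℝ) 1, x + t • (y - x) ∈ ball x0 R := fun t ht =>
      (convex_ball x0 R).add_smul_sub_mem hx hy ht
    have hint : IntervalIntegrable (fun t : ℝ => fderiv ℝ F (x + t • (y - x))) volume 0 1 := by
      apply ContinuousOn.intervalIntegrable
      rw [uIcc_of_le zero_le_one]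
      exact hc
    have h2 : (∫ t in (0 : ℝ)..1, fderiv ℝ F (x + t • (y - x))) (y - x) =
        ∫ t in (0 : ℝ)..1, (fderiv ℝ F (x + t • (y - x))) (y - x) :=
      ContinuousLinearMap.intervalIntegral_apply hint (y - x)
    have h3 : ∫ t in (0 : ℝ)..1, (fderiv ℝ F (x + t • (y - x))) (y - x) =
        F (x + (1 : ℝ) • (y - x)) - F (x + (0 : ℝ) • (y - x)) := by
      refine integral_eq_sub_of_hasDerivAt (f := fun t : ℝ => F (x + t • (y - x))) ?_ ?_
      · intro t ht
        rw [uIcc_of_le zero_le_one] at ht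
        have h4 : HasFDerivAt F (fderiv ℝ F (x + t • (y - x))) (x + t • (y - x)) :=
          (hG.1.differentiableAt (isOpen_ball.mem_nhds (hmem t ht))).hasFDerivAt
        have h5 : HasDerivAt (fun t : ℝ => x + t • (y - x)) (y - x) t := by
          simpa using ((hasDerivAt_id t).smul_const (y - x)).const_add x
        exact h4.comp_hasDerivAt t h5
      · apply ContinuousOn.intervalIntegrable
        rw [uIcc_of_le zero_le_one]
        exact hc.clm_apply continuousOn_const
    rw [h2, h3, one_smul, zero_smul, add_zero]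
    have h6 : x + (y - x) = y := by abel
    rw [h6]
    ring
  · simp

end CoP
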