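import Pool.Agent.Lib.CoP.C.Defs
import Pool.Agent.Lib.CoP.M.Had
import Pool.Agent.Lib.CoP.M.Ext

/-!
# CoP.M.Coord (module C0, size 350): the bracket in a chart

`x0 = e p`, `closedBall x0 (3ρ) ⊆ e.target`. For `α : E →L ℝ` let `α^` be the extension (`exists_ext`) of `x ↦ α (x - x0)`; choose it for the elements of a basis of the dual and extend linearly, or simply choose for every `α` and prove bilinearity of
`(α, β) ↦ br α^ β^ (e.symm (x0 + x))` for `x ∈ ball 0 ρ` from `br_local` and additivity. `P x α` is defined by `β (P x α) = br α^ β^ (e.symm (x0 + x))` (finite dimension: with a basis `b i` of `E` and dual basis `c i`,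
`P x α = ∑ i, br α^ (c i)^ (e.symm (x0+x)) • b i`; as an element of `(E →L ℝ) →L E`: sum over the dual basis again, so `P x = ∑ i j, br (c j)^ (c i)^ (..) • (evaluation at b j) ⊗ b i`). Smooth since every coefficient is a smooth function of `x`
(`f.contMDiff` composed with `e.symm`, `contMDiffOn_symm_of_mem_maximalAtlas`). `r = ρ`.
* `formula`: `f : C^∞(M)`, `F = f ∘ e.symm` on `ball x0 (3ρ)`, `x1 = x0 + x`. `hadamard` at `x1`: `F y = F x1 + h y (y - x1)`, `h y = ∑ i, (h y (b i)) • c i`; the function `f` is near `e.symm x1` equal to `F x1 + ∑ i, ĥ_i * ((c i)^ - c i (x))`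
  (`ĥ_i` extension of `y ↦ h y (b i)`). `br_local`, `leibniz`, `br_const`: `br f g = ∑ i, h x1 (b i) • br (c i)^ g + ∑ i, 0 • ..= br (DF_{x1})^ g` at `e.symm x1`. The same in the second variable.
* `skew`: from `π.skew`. `jacobi`: `U ⊆ ball 0 ρ` open, `u v w` smooth on `U`, `x ∈ U`: choose a small ball around `x0 + x` inside `x0 + U`, extensions `û v̂ ŵ` (`exists_ext` with center `x0 + x`); near `x`: `brk P v w = br v̂ ŵ ∘ e.symm (x0 + ·)` (formula), so the
  double brackets agree with those of `π`; `π.jacobi`.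
* `cois`: if `q ∈ N ↔ e q - e p ∈ V` on `e.source` and `α = 0` on `V`, then `α^` vanishes on `N` (third property of `exists_ext`), so for `α, β ∈ V^o`, `x ∈ V`: `β (P x α) = br α^ β^ (e.symm (x0+x)) = 0` (`IsCoisotropic`, the point is in `N`); a vector killed by all `β ∈ V^o` is in `V`.
-/

open Set Filter Metric
open scoped Topology ContDiff Manifold

noncomputable section

namespace CoP

variable {E : Type*} [NormedAddCommGroup E] [NormedSpace ℝ E] [FiniteDimensional ℝ E]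
  {M : Type*} [TopologicalSpace M] [ChartedSpace E M] [IsManifold 𝓘(ℝ, E) ∞ M] [T2Space M]

/-- properties near a point of the source of a chart -/
private theorem crd_ev {E M : Type*} [NormedAddCommGroup E] [TopologicalSpace M] {e : OpenPartialHomeomorph M E} {x0 x1 : E} {δ : ℝ} (hx1 : x1 ∈ ball x0 δ)
    (hsub : ball x0 δ ⊆ e.target) {Q : M → Prop} (h : ∀ y ∈ ball x0 δ, Q (e.symm y)) :
    ∀ᶠ q in 𝓝 (e.symm x1), Q q := by
  have h1 : x1 ∈ e.target := hsub hx1
  have h2 : e.symm x1 ∈ e.source := e.map_target h1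
  have h3 : ∀ᶠ q in 𝓝 (e.symm x1), e q ∈ ball x0 δ := by
    refine (e.continuousAt h2).eventually ?_
    rw [e.right_inv h1]
    exact isOpen_ball.mem_nhds hx1
  filter_upwards [h3, e.open_source.mem_nhds h2] with q hq1 hq2
  have := h (e q) hq1
  rwa [e.left_inv hq2] at this

omit [FiniteDimensional ℝ E] [IsManifold 𝓘(ℝ, E) ∞ M] [T2Space M] in
private theorem crd_smooth {e : OpenPartialHomeomorph M E}
    (he : e ∈ IsManifold.maximalAtlas 𝓘(ℝ, E) ∞ M) (f : C^∞⟮𝓘(ℝ, E), M; ℝ⟯) :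
    ContDiffOn ℝ ∞ (fun y => f (e.symm y)) e.target := by
  have h1 : ContMDiffOn 𝓘(ℝ, E) 𝓘(ℝ, E) ∞ e.symm e.target :=
    contMDiffOn_symm_of_mem_maximalAtlas he
  have h2 := f.contMDiff.comp_contMDiffOn h1
  exact contMDiffOn_iff_contDiffOn.1 h2

omit [FiniteDimensional ℝ E] [IsManifold 𝓘(ℝ, E) ∞ M] [T2Space M] in
private theorem crd_br_sum (π : Poisson E M) {ι : Type*} (s : Finset ι)
    (F : ι → C^∞⟮𝓘(ℝ, E), M; ℝ⟯) (g : C^∞⟮𝓘(ℝ, E), M; ℝ⟯) (q : M) :
    π.br (∑ i ∈ s, F i) g q = ∑ i ∈ s, π.br (F i) g q := by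
  classical
  have h0 : π.br 0 g = 0 := by
    have := π.smul_left 0 0 g
    rwa [zero_smul, zero_smul] at this
  induction s using Finset.induction_on with
  | empty => rw [Finset.sum_empty, Finset.sum_empty, h0]; rfl
  | insert a s ha ih =>
    rw [Finset.sum_insert ha, Finset.sum_insert ha, π.add_left, ← ih]
    rfl

/-- one half of the formula -/
private theorem crd_step {e : OpenPartialHomeomorph M E}
    (he : e ∈ IsManifold.maximalAtlas 𝓘(ℝ, E) ∞ M) {x0 : E} {ρ : ℝ} (hρ : 0 < ρ)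
    (hb : closedBall x0 (3 * ρ) ⊆ e.target) (π : Poisson E M) {ι : Type*} [Fintype ι]
    (b : Module.Basis ι ℝ E) (c : ι → E →L[ℝ] ℝ) (hc : ∀ i v, c i v = b.repr v i)
    (Cf : ι → C^∞⟮𝓘(ℝ, E), M; ℝ⟯) (hCf : ∀ i, ∀ x ∈ ball x0 (2 * ρ), Cf i (e.symm x) = c i (x - x0))
    (f g : C^∞⟮𝓘(ℝ, E), M; ℝ⟯) {x1 : E} (hx1 : x1 ∈ ball x0 ρ) :
    π.br f g (e.symm x1) =
      ∑ j, fderiv ℝ (fun y => f (e.symm y)) x1 (b j) * π.br (Cf j) g (e.symm x1) := by
  have hb3 : ball x0 (3 * ρ) ⊆ e.target := ball_subset_closedBall.trans hb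
  have hb2 : ball x0 (2 * ρ) ⊆ e.target := (ball_subset_ball (by linarith)).trans hb3
  have hx2 : x1 ∈ ball x0 (2 * ρ) := ball_subset_ball (by linarith) hx1
  have hx3 : x1 ∈ ball x0 (3 * ρ) := ball_subset_ball (by linarith) hx1
  obtain ⟨h, hhs, hh1, hh2⟩ := hadamard ((crd_smooth he f).mono hb3) hx3
  have hex : ∀ j, ∃ hf : C^∞⟮𝓘(ℝ, E), M; ℝ⟯, ∀ x ∈ ball x0 (2 * ρ), hf (e.symm x) = h x (b j) := by
    intro j
    obtain ⟨hf, h1, -⟩ := exists_ext he hρ hb (u := fun x => h x (b j))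
      (hhs.clm_apply contDiffOn_const)
    exact ⟨hf, h1⟩
  choose hf hhf using hex
  obtain ⟨cst, hcst⟩ : ∃ cst : ℝ → C^∞⟮𝓘(ℝ, E), M; ℝ⟯, ∀ t q, cst t q = t :=
    ⟨fun t => ⟨fun _ => t, contMDiff_const⟩, fun _ _ => rfl⟩
  obtain ⟨B, hB⟩ : ∃ B : ι → C^∞⟮𝓘(ℝ, E), M; ℝ⟯, B = fun j => Cf j + cst (-c j (x1 - x0)) :=
    ⟨_, rfl⟩
  obtain ⟨R, hR⟩ : ∃ R : C^∞⟮𝓘(ℝ, E), M; ℝ⟯, R = cst (f (e.symm x1)) + ∑ j, hf j * B j :=
    ⟨_, rfl⟩
  have hBv : ∀ j, ∀ y ∈ ball x0 (2 * ρ), B j (e.symm y) = c j (y - x1) := by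
    intro j y hy
    rw [hB]
    change Cf j (e.symm y) + cst (-c j (x1 - x0)) (e.symm y) = _
    rw [hCf j y hy, hcst, ← sub_eq_add_neg, ← map_sub]
    congr 1
    abel
  have hsumv : ∀ (q : M) (s : Finset ι), (∑ j ∈ s, hf j * B j) q = ∑ j ∈ s, hf j q * B j q := by
    intro q s
    classical
    induction s using Finset.induction_on with
    | empty => rfl
    | insert a s ha ih =>
      rw [Finset.sum_insert ha, Finset.sum_insert ha, ← ih]
      rfl
  have hfR : ∀ᶠ q in 𝓝 (e.symm x1), f q = R q := by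
    refine crd_ev hx2 hb2 fun y hy => ?_
    have h3 := hh1 y (ball_subset_ball (by linarith) hy)
    rw [h3, hR]
    change _ = cst (f (e.symm x1)) (e.symm y) + (∑ j, hf j * B j) (e.symm y)
    rw [hcst, hsumv]
    congr 1
    have h4 : y - x1 = ∑ j, c j (y - x1) • b j := by
      conv_lhs => rw [← b.sum_repr (y - x1)]
      exact Finset.sum_congr rfl fun j _ => by rw [hc]
    conv_lhs => rw [h4]
    rw [map_sum]
    refine Finset.sum_congr rfl fun j _ => ?_
    rw [map_smul, hhf j y hy, hBv j y hy, smul_eq_mul, mul_comm]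
  rw [br_local π hfR (Eventually.of_forall fun _ => rfl) (g' := g), hR, π.add_left]
  change π.br (cst (f (e.symm x1))) g (e.symm x1) + π.br (∑ j, hf j * B j) g (e.symm x1) = _
  rw [br_const π (Eventually.of_forall fun q => hcst _ q), zero_add, crd_br_sum]
  refine Finset.sum_congr rfl fun j _ => ?_
  rw [π.leibniz]
  change hf j (e.symm x1) * π.br (B j) g (e.symm x1) + B j (e.symm x1) * π.br (hf j) g (e.symm x1) = _
  rw [hBv j x1 hx2, sub_self, map_zero, zero_mul, add_zero, hhf j x1 hx2, hh2]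
  congr 1
  rw [hB]
  simp only
  rw [π.add_left]
  change π.br (Cf j) g (e.symm x1) + π.br (cst (-c j (x1 - x0))) g (e.symm x1) = _
  rw [br_const π (Eventually.of_forall fun q => hcst _ q), add_zero]

private theorem crd_smul {E F : Type*} [NormedAddCommGroup E] [NormedSpace ℝ E]
    [NormedAddCommGroup F] [NormedSpace ℝ F] {k : E → ℝ} {s : Set E} (hk : ContDiffOn ℝ ∞ k s)
    (B : F) : ContDiffOn ℝ ∞ (fun x => k x • B) s := hk.smul contDiffOn_const

omit [FiniteDimensional ℝ E] in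
private theorem crd_brk_congr {P : E → (E →L[ℝ] ℝ) →L[ℝ] E} {u u' v v' : E → ℝ} {x : E}
    (hu : u =ᶠ[𝓝 x] u') (hv : v =ᶠ[𝓝 x] v') : brk P u v x = brk P u' v' x := by
  unfold brk
  rw [hu.fderiv_eq, hv.fderiv_eq]

omit [FiniteDimensional ℝ E] in
private theorem crd_brk_shift (P : E → (E →L[ℝ] ℝ) →L[ℝ] E) (F G : E → ℝ) (x0 x : E) :
    brk P (fun w => F (x0 + w)) (fun w => G (x0 + w)) x =
      fderiv ℝ G (x0 + x) (P x (fderiv ℝ F (x0 + x))) := by
  unfold brk
  rw [fderiv_comp_add_left, fderiv_comp_add_left]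

theorem exists_lps (π : Poisson E M) {e : OpenPartialHomeomorph M E}
    (he : e ∈ IsManifold.maximalAtlas 𝓘(ℝ, E) ∞ M) {p : M} (hp : p ∈ e.source) :
    ∃ (r : ℝ) (P : E → (E →L[ℝ] ℝ) →L[ℝ] E), LPS P r ∧ (∀ x ∈ ball (0 : E) r, e p + x ∈ e.target) ∧
      (∀ (f g : C^∞⟮𝓘(ℝ, E), M; ℝ⟯), ∀ x ∈ ball (0 : E) r, π.br f g (e.symm (e p + x)) =
        brk P (fun w => f (e.symm (e p + w))) (fun w => g (e.symm (e p + w))) x) ∧
      ∀ (N : Set M) (V : Submodule ℝ E), (∀ x ∈ e.source, x ∈ N ↔ e x - e p ∈ V) →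
        IsCoisotropic π N → Cois P V r := by
  obtain ⟨ρ, hρ, hb⟩ : ∃ ρ : ℝ, 0 < ρ ∧ closedBall (e p) (3 * ρ) ⊆ e.target := by
    obtain ⟨ε, hε, hs⟩ := Metric.nhds_basis_closedBall.mem_iff.1
      (e.open_target.mem_nhds (e.map_source hp))
    refine ⟨ε / 3, by positivity, ?_⟩
    rwa [mul_div_cancel₀ _ (by norm_num)]
  obtain ⟨x0, hx0⟩ : ∃ x0, x0 = e p := ⟨_, rfl⟩
  rw [← hx0] at hb ⊢
  have hb3 : ball x0 (3 * ρ) ⊆ e.target := ball_subset_closedBall.trans hb
  have hb2 : ball x0 (2 * ρ) ⊆ e.target := (ball_subset_ball (by linarith)).trans hb3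
  have hA : ∀ α : E →L[ℝ] ℝ, ∃ f : C^∞⟮𝓘(ℝ, E), M; ℝ⟯,
      (∀ x ∈ ball x0 (2 * ρ), f (e.symm x) = α (x - x0)) ∧ (∀ q ∉ e.source, f q = 0) ∧
        ∀ q ∈ e.source, e q ∉ ball x0 (3 * ρ) ∨ α (e q - x0) = 0 → f q = 0 := fun α =>
    exists_ext he hρ hb (u := fun x => α (x - x0))
      (α.contDiff.comp (contDiff_id.sub contDiff_const)).contDiffOn
  choose A hA1 hA2 hA3 using hA
  have hin : ∀ x ∈ ball (0 : E) ρ, x0 + x ∈ ball x0 ρ := fun x hx => by
    rw [mem_ball_iff_norm, add_sub_cancel_left]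
    exact mem_ball_zero_iff.1 hx
  obtain ⟨b, -⟩ : ∃ b : Module.Basis (Fin (Module.finrank ℝ E)) ℝ E, b = Module.finBasis ℝ E :=
    ⟨_, rfl⟩
  obtain ⟨c, hc⟩ : ∃ c : Fin (Module.finrank ℝ E) → E →L[ℝ] ℝ, ∀ i v, c i v = b.repr v i :=
    ⟨fun i => LinearMap.toContinuousLinearMap (b.coord i), fun _ _ => rfl⟩
  obtain ⟨K, hK⟩ : ∃ K : Fin (Module.finrank ℝ E) → Fin (Module.finrank ℝ E) → E → ℝ,
      K = fun i j x => π.br (A (c j)) (A (c i)) (e.symm (x0 + x)) := ⟨_, rfl⟩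
  obtain ⟨P, hPd⟩ : ∃ P : E → (E →L[ℝ] ℝ) →L[ℝ] E,
      P = fun x => ∑ i, ∑ j, K i j x • ((ContinuousLinearMap.apply ℝ ℝ (b j)).smulRight (b i)) :=
    ⟨_, rfl⟩
  have hP : ∀ x (α β : E →L[ℝ] ℝ), β (P x α) = ∑ i, ∑ j, K i j x * (α (b j) * β (b i)) := by
    intro x α β
    rw [hPd]
    simp [map_sum]
  -- the formula
  have hform : ∀ (f g : C^∞⟮𝓘(ℝ, E), M; ℝ⟯), ∀ x ∈ ball (0 : E) ρ, π.br f g (e.symm (x0 + x)) =
      fderiv ℝ (fun y => g (e.symm y)) (x0 + x) (P x (fderiv ℝ (fun y => f (e.symm y)) (x0 + x))) := by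
    intro f g x hx
    rw [crd_step he hρ hb π b c hc (fun i => A (c i)) (fun i => hA1 (c i)) f g (hin x hx), hP,
      Finset.sum_comm]
    refine Finset.sum_congr rfl fun j _ => ?_
    have h1 : π.br (A (c j)) g (e.symm (x0 + x)) = -π.br g (A (c j)) (e.symm (x0 + x)) := by
      rw [π.skew]
      rfl
    rw [h1, crd_step he hρ hb π b c hc (fun i => A (c i)) (fun i => hA1 (c i)) g (A (c j))
      (hin x hx), ← Finset.sum_neg_distrib, Finset.mul_sum]
    refine Finset.sum_congr rfl fun i _ => ?_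
    have h2 : π.br (A (c i)) (A (c j)) (e.symm (x0 + x)) = -K i j x := by
      rw [hK, π.skew]
      rfl
    rw [h2]
    ring
  have hform' : ∀ (f g : C^∞⟮𝓘(ℝ, E), M; ℝ⟯), ∀ x ∈ ball (0 : E) ρ, π.br f g (e.symm (x0 + x)) =
        brk P (fun w => f (e.symm (x0 + w))) (fun w => g (e.symm (x0 + w))) x := by
    intro f g x hx
    rw [hform f g x hx]
    exact (crd_brk_shift P (fun y => f (e.symm y)) (fun y => g (e.symm y)) x0 x).symm
  refine ⟨ρ, P, ?_, fun x hx => hb2 (ball_subset_ball (by linarith) (hin x hx)), hform', ?_⟩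
  · refine { pos := hρ, smooth := ?_, skew := ?_, jacobi := ?_ }
    · have hKs : ∀ i j, ContDiffOn ℝ ∞ (K i j) (ball 0 ρ) := by
        intro i j
        rw [hK]
        refine (crd_smooth he (π.br (A (c j)) (A (c i)))).comp
          (contDiff_const.add contDiff_id).contDiffOn fun x hx => ?_
        exact hb2 (ball_subset_ball (by linarith) (hin x hx))
      rw [hPd]
      refine ContDiffOn.sum fun i _ => ContDiffOn.sum fun j _ => ?_
      exact crd_smul (hKs i j) _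
    · intro x hx α β
      rw [hP, hP, Finset.sum_comm, ← Finset.sum_neg_distrib]
      refine Finset.sum_congr rfl fun i _ => ?_
      rw [← Finset.sum_neg_distrib]
      refine Finset.sum_congr rfl fun j _ => ?_
      have h2 : K j i x = -K i j x := by
        rw [hK]
        simp only
        rw [π.skew]
        rfl
      rw [h2]
      ring
    · intro U hU hUo u v w hu hv hw x hx
      obtain ⟨σ, hσ, hσ1, hσ2⟩ : ∃ σ : ℝ, 0 < σ ∧ (∀ y ∈ closedBall (x0 + x) (3 * σ), y - x0 ∈ U) ∧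
          closedBall (x0 + x) (3 * σ) ⊆ e.target := by
        have h1 : ∀ᶠ y in 𝓝 (x0 + x), y - x0 ∈ U := by
          have hc' : ContinuousAt (fun y : E => y - x0) (x0 + x) := by fun_prop
          refine hc'.eventually ?_
          have h5 : (fun y : E => y - x0) (x0 + x) = x := add_sub_cancel_left x0 x
          rw [h5]
          exact hUo.mem_nhds hx
        have h2 : ∀ᶠ y in 𝓝 (x0 + x), y ∈ e.target :=
          e.open_target.mem_nhds (hb2 (ball_subset_ball (by linarith) (hin x (hU hx))))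
        obtain ⟨ε, hε, hs⟩ := Metric.nhds_basis_closedBall.mem_iff.1 (h1.and h2)
        refine ⟨ε / 3, by positivity, ?_, ?_⟩
        · rw [mul_div_cancel₀ _ (by norm_num)]
          exact fun y hy => (hs hy).1
        · rw [mul_div_cancel₀ _ (by norm_num)]
          exact fun y hy => (hs hy).2
      have hsh : ∀ z ∈ ball x (2 * σ), x0 + z ∈ ball (x0 + x) (2 * σ) := fun z hz => by
        rw [mem_ball_iff_norm, add_sub_add_left_eq_sub]
        exact mem_ball_iff_norm.1 hz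
      have hzU : ∀ z ∈ ball x (2 * σ), z ∈ U := fun z hz => by
        have := hσ1 (x0 + z) (ball_subset_closedBall (ball_subset_ball (by linarith) (hsh z hz)))
        rwa [add_sub_cancel_left] at this
      have hloc : ∀ φ : E → ℝ, ContDiffOn ℝ ∞ φ U → ∃ f : C^∞⟮𝓘(ℝ, E), M; ℝ⟯,
          ∀ z ∈ ball x (2 * σ), f (e.symm (x0 + z)) = φ z := by
        intro φ hφ
        obtain ⟨f, h1, -⟩ := exists_ext he hσ hσ2 (u := fun y => φ (y - x0))
          (hφ.comp (contDiff_id.sub contDiff_const).contDiffOn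
            (fun y hy => hσ1 y (ball_subset_closedBall hy)))
        refine ⟨f, fun z hz => ?_⟩
        rw [h1 (x0 + z) (hsh z hz), add_sub_cancel_left]
      obtain ⟨fu, hfu⟩ := hloc u hu
      obtain ⟨fv, hfv⟩ := hloc v hv
      obtain ⟨fw, hfw⟩ := hloc w hw
      have hbr : ∀ (φ ψ : E → ℝ) (f g : C^∞⟮𝓘(ℝ, E), M; ℝ⟯),
          (∀ z ∈ ball x (2 * σ), f (e.symm (x0 + z)) = φ z) →
          (∀ z ∈ ball x (2 * σ), g (e.symm (x0 + z)) = ψ z) →
          ∀ z ∈ ball x (2 * σ), π.br f g (e.symm (x0 + z)) = brk P φ ψ z := by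
        intro φ ψ f g hf hg z hz
        rw [hform' f g z (hU (hzU z hz))]
        refine crd_brk_congr ?_ ?_
        · filter_upwards [isOpen_ball.mem_nhds hz] with z' hz' using hf z' hz'
        · filter_upwards [isOpen_ball.mem_nhds hz] with z' hz' using hg z' hz'
      have hxx : x ∈ ball x (2 * σ) := mem_ball_self (by linarith)
      rw [← hbr u (brk P v w) fu (π.br fv fw) hfu (hbr v w fv fw hfv hfw) x hxx,
        ← hbr v (brk P w u) fv (π.br fw fu) hfv (hbr w u fw fu hfw hfu) x hxx,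
        ← hbr w (brk P u v) fw (π.br fu fv) hfw (hbr u v fu fv hfu hfv) x hxx]
      exact congrArg (fun F : C^∞⟮𝓘(ℝ, E), M; ℝ⟯ => F (e.symm (x0 + x))) (π.jacobi fu fv fw)
  · intro N V hNV hN x hxV hx α hα
    by_contra hcon
    obtain ⟨φ, hφ1, hφ2⟩ := Submodule.exists_le_ker_of_notMem hcon
    obtain ⟨β, hβ⟩ : ∃ β : E →L[ℝ] ℝ, ∀ v, β v = φ v :=
      ⟨LinearMap.toContinuousLinearMap φ, fun _ => rfl⟩
    refine hφ1 ?_
    rw [← hβ]
    have hvan : ∀ γ : E →L[ℝ] ℝ, (∀ v ∈ V, γ v = 0) → ∀ q ∈ N, A γ q = 0 := by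
      intro γ hγ q hq
      by_cases hqs : q ∈ e.source
      · exact hA3 γ q hqs (Or.inr (hγ _ ((hNV q hqs).1 hq)))
      · exact hA2 γ q hqs
    have hβV : ∀ v ∈ V, β v = 0 := fun v hv => by
      rw [hβ]
      exact hφ2 hv
    have hfd : ∀ γ : E →L[ℝ] ℝ, fderiv ℝ (fun w => A γ (e.symm (x0 + w))) x = γ := by
      intro γ
      have h1 : (fun w => A γ (e.symm (x0 + w))) =ᶠ[𝓝 x] γ := by
        filter_upwards [isOpen_ball.mem_nhds hx] with z hz
        rw [hA1 γ _ (ball_subset_ball (by linarith) (hin z hz)), add_sub_cancel_left]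
      rw [h1.fderiv_eq]
      exact γ.fderiv
    have hx2 : x0 + x ∈ e.target := hb2 (ball_subset_ball (by linarith) (hin x hx))
    have hmem : e.symm (x0 + x) ∈ N := by
      rw [hNV _ (e.map_target hx2), e.right_inv hx2, add_sub_cancel_left]
      exact hxV
    have h3 := hform' (A α) (A β) x hx
    rw [hN (A α) (A β) (hvan α hα) (hvan β hβV) _ hmem] at h3
    unfold brk at h3
    rw [hfd, hfd] at h3
    exact h3.symm

end CoP
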