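import Pool.Agent.Lib.CoP.C.Ind
import Pool.Agent.Lib.CoP.M.Coord

/-!
# CoP.M.Adapt (size 150): adapted parametrisations on the manifold

`IsSubmanifold` at `p0` gives the slice chart `e`, `V`; `exists_lps` gives `r, P`; choose `r' ≤ r` with `e.symm (e p0 + x) ∈ O` for `‖x‖ < r'` (continuity of `e.symm` at `e p0`, `O` open); `normal_form` with `r'` gives `n, p, R, j`; `J z = e.symm (e p0 + j z)`.
* smooth: `contMDiffOn_symm_of_mem_maximalAtlas` composed with the smooth `j`; inj: `e.symm` is injective on the target. `bracket`: `exists_lps` formula at `x = j z`, then `NF.bracket` with `u = fun w => f (e.symm (e p0 + w))` (differentiable at `j z`).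
* real, `J 0 ∈ N`: points `e.symm (e p0 + v)`, `v ∈ V` in the ball, are in `N` by the slice property.
-/

open Set Filter Metric
open scoped Topology ContDiff Manifold

noncomputable section

namespace CoP

variable {E : Type*} [NormedAddCommGroup E] [NormedSpace ℝ E] [FiniteDimensional ℝ E]
  {M : Type*} [TopologicalSpace M] [ChartedSpace E M] [IsManifold 𝓘(ℝ, E) ∞ M] [T2Space M]

/-- `J` is a parametrisation of a piece of a symplectic leaf by canonical coordinates which maps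
`ℝⁿ × 0` into `N`. -/
structure Adapted (π : Poisson E M) (N : Set M) (n : ℕ) (R : ℝ) (J : Z n → M) : Prop where
  pos : 0 < R
  smooth : ContMDiffOn 𝓘(ℝ, Z n) 𝓘(ℝ, E) ∞ J (ball 0 R)
  inj : InjOn J (ball 0 R)
  bracket : ∀ (u v : C^∞⟮𝓘(ℝ, E), M; ℝ⟯), ∀ z ∈ ball (0 : Z n) R,
    π.br u v (J z) = pb (fun w => u (J w)) (fun w => v (J w)) z
  real : ∀ q, ((q, 0) : Z n) ∈ ball (0 : Z n) R → J (q, 0) ∈ N

theorem exists_adapted (π : Poisson E M) {N : Set M} (hN : IsSubmanifold E N)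
    (hc : IsCoisotropic π N) {O : Set M} (hO : IsOpen O) {p0 : M} (hp : p0 ∈ N) (hpO : p0 ∈ O) :
    ∃ (n : ℕ) (R : ℝ) (J : Z n → M), Adapted π N n R J ∧ J 0 ∈ N ∧ J 0 ∈ O := by
  obtain ⟨e, he, hpe, V, hV⟩ := hN p0 hp
  obtain ⟨r, P, hP, htg, hbr, hco⟩ := exists_lps π he hpe
  have hcois : Cois P V r := hco N V hV hc
  have hcont : ContinuousAt (fun x : E => e.symm (e p0 + x)) 0 := by
    have h1 : ContinuousAt e.symm (e p0 + 0) := by
      rw [add_zero]
      exact e.continuousAt_symm (e.map_source hpe)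
    exact ContinuousAt.comp (f := fun x : E => e p0 + x) h1 (continuous_const.add continuous_id).continuousAt
  have h0 : (fun x : E => e.symm (e p0 + x)) 0 ∈ O := by
    simp only [add_zero]
    rwa [e.left_inv hpe]
  obtain ⟨r1, hr1, hb1⟩ := Metric.mem_nhds_iff.1 (hcont.preimage_mem_nhds (hO.mem_nhds h0))
  obtain ⟨n, p, R, j, hj⟩ := normal_form hP V hcois (lt_min hr1 hP.pos) (min_le_right _ _)
  have hjr : ∀ z ∈ ball (0 : Z n) R, j z ∈ ball (0 : E) r := fun z hz => by
    rw [mem_ball_zero_iff]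
    exact (hj.maps z hz).trans_le (min_le_right _ _)
  have hN' : ∀ v ∈ V, v ∈ ball (0 : E) r → e.symm (e p0 + v) ∈ N := by
    intro v hv hvb
    have ht := htg v hvb
    rw [hV _ (e.map_target ht), e.right_inv ht]
    simpa using hv
  refine ⟨n, R, fun z => e.symm (e p0 + j z), ⟨hj.pos, ?_, ?_, ?_, ?_⟩, ?_, ?_⟩
  · have h1 : ContMDiffOn 𝓘(ℝ, E) 𝓘(ℝ, E) ∞ e.symm e.target :=
      contMDiffOn_symm_of_mem_maximalAtlas he
    have h2 : ContMDiffOn 𝓘(ℝ, Z n) 𝓘(ℝ, E) ∞ (fun z => e p0 + j z) (ball 0 R) :=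
      (contDiffOn_const.add hj.smooth).contMDiffOn
    exact h1.comp h2 fun z hz => htg _ (hjr z hz)
  · intro a ha b hb hab
    have h1 := e.symm.injOn (htg _ (hjr a ha)) (htg _ (hjr b hb)) hab
    exact hj.inj ha hb (add_left_cancel h1)
  · intro u v z hz
    rw [hbr u v (j z) (hjr z hz)]
    have hd : ∀ u : C^∞⟮𝓘(ℝ, E), M; ℝ⟯,
        DifferentiableAt ℝ (fun w => u (e.symm (e p0 + w))) (j z) := by
      intro u
      have ht := htg _ (hjr z hz)
      have h1 : ContMDiffAt 𝓘(ℝ, E) 𝓘(ℝ, E) ∞ e.symm (e p0 + j z) :=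
        (contMDiffOn_symm_of_mem_maximalAtlas he).contMDiffAt (e.open_target.mem_nhds ht)
      have h2 : ContMDiffAt 𝓘(ℝ, E) 𝓘(ℝ, ℝ) ∞ (fun y => u (e.symm y)) (e p0 + j z) :=
        (u.contMDiff.contMDiffAt).comp _ h1
      have h3 : DifferentiableAt ℝ (fun y => u (e.symm y)) (e p0 + j z) :=
        h2.contDiffAt.differentiableAt (by simp)
      exact DifferentiableAt.comp (j z) (g := fun y => u (e.symm y)) (f := fun w => e p0 + w) h3
        ((differentiableAt_const _).add differentiableAt_id)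
    exact hj.bracket z hz _ _ (hd u) (hd v)
  · intro q hq
    exact hN' _ (hj.real q hq) (hjr _ hq)
  · have h2 : j 0 ∈ V := by rw [hj.zero]; exact hj.mem
    exact hN' _ h2 (hjr 0 (mem_ball_self hj.pos))
  · have h2 : ‖j 0‖ < r1 := (hj.maps 0 (mem_ball_self hj.pos)).trans_le (min_le_left _ _)
    have h3 : j 0 ∈ ball (0 : E) r1 := by rwa [mem_ball_zero_iff]
    exact hb1 h3

end CoP
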